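import Mathlib

namespace Pool.Agent.Results.MP_142f15_an.RenormQGLC

open scoped ENNReal BigOperators

section Defs

variable {𝕜 : Type*} [RCLike 𝕜] {X : Type*} [NormedAddCommGroup X] [NormedSpace 𝕜 X]

/-- `x` is a basis of `X` with coordinate functionals `f`: both sequences are norm bounded,
they are biorthogonal, and the span of `x` is dense. -/
structure IsBasis (x : ℕ → X) (f : ℕ → (X →L[𝕜] 𝕜)) : Prop where
  biorthogonal : ∀ n k, f n (x k) = if n = k then 1 else 0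
  dense_span : Dense (Submodule.span 𝕜 (Set.range x) : Set X)
  bounded : ∃ M : ℝ, ∀ n, ‖x n‖ ≤ M
  bounded_dual : ∃ M : ℝ, ∀ n, ‖f n‖ ≤ M

/-- The set `Q` of all vectors whose coordinates have modulus at most `1`. -/
def coeffBall (f : ℕ → (X →L[𝕜] 𝕜)) : Set X := {g | ∀ n, ‖f n g‖ ≤ 1}

/-- Near unconditionality. -/
def NearlyUnconditional (x : ℕ → X) (f : ℕ → (X →L[𝕜] 𝕜)) : Prop :=
  ∀ a : ℝ, 0 < a → a ≤ 1 → ∃ C : ℝ, ∀ g ∈ coeffBall f, ∀ A : Finset ℕ,
    (∀ n ∈ A, a ≤ ‖f n g‖) → ‖∑ n ∈ A, f n g • x n‖ ≤ C * ‖g‖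

/-- `N` is a norm on `X` equivalent to the given one. -/
def IsEquivalentNorm (N : Seminorm 𝕜 X) : Prop :=
  ∃ c C : ℝ, 0 < c ∧ ∀ g : X, c * ‖g‖ ≤ N g ∧ N g ≤ C * ‖g‖

/-- The basis is `L`-QGLC when `X` carries the norm `N`. -/
def IsQGLC (L : ℝ) (N : Seminorm 𝕜 X) (x : ℕ → X) (f : ℕ → (X →L[𝕜] 𝕜)) : Prop :=
  ∀ (A : Finset ℕ) (ε : ℕ → 𝕜), (∀ n ∈ A, ‖ε n‖ = 1) → ∀ g ∈ coeffBall f,
    (∀ n ∈ A, f n g = 0) →
      N (∑ n ∈ A, ε n • x n) ≤ L * N (∑ n ∈ A, ε n • x n + g)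

end Defs

/-! ### The combinatorial block structure -/

/-- Block structure: `ℕ` is partitioned into blocks `B k`, the block `B k` has levels `0, …, k`,
and level `j` of `B k` has exactly `M ^ j` elements. -/
structure Blocks (M : ℕ) where
  blk : ℕ → ℕ
  lev : ℕ → ℕ
  B : ℕ → Finset ℕ
  mem_B : ∀ n k, n ∈ B k ↔ blk n = k
  lev_le : ∀ n, lev n ≤ blk n
  card_lev : ∀ k j, j ≤ k → ((B k).filter (fun n => lev n = j)).card = M ^ j

theorem exists_blocks (M : ℕ) (hM : 1 ≤ M) : Nonempty (Blocks M) := by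
  classical
  let Γ := Σ k : ℕ, Σ j : Fin (k + 1), Fin (M ^ (j : ℕ))
  have hinf : Infinite Γ := by
    refine Infinite.of_injective (fun k : ℕ => (⟨k, 0, ⟨0, by positivity⟩⟩ : Γ)) ?_
    intro a b h
    exact (Sigma.mk.inj_iff.mp h).1
  obtain ⟨e⟩ : Nonempty (ℕ ≃ Γ) := nonempty_equiv_of_countable
  let emb : ∀ k : ℕ, (Σ j : Fin (k + 1), Fin (M ^ (j : ℕ))) ↪ ℕ := fun k =>
    ⟨fun s => e.symm ⟨k, s⟩, by
      intro a b h
      have := e.symm.injective h
      exact eq_of_heq (Sigma.mk.inj_iff.mp this).2⟩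
  have hemb : ∀ k s, e (emb k s) = ⟨k, s⟩ := fun k s => e.apply_symm_apply _
  refine ⟨⟨fun n => (e n).1, fun n => ((e n).2.1 : ℕ), fun k => Finset.univ.map (emb k), ?_, ?_, ?_⟩⟩
  · intro n k
    simp only [Finset.mem_map, Finset.mem_univ, true_and]
    constructor
    · rintro ⟨s, rfl⟩
      rw [hemb]
    · intro h
      subst h
      exact ⟨(e n).2, e.symm_apply_apply n⟩
  · intro n
    have := (e n).2.1.isLt
    omega
  · intro k j hj
    have h1 : (Finset.univ.map (emb k)).filter (fun n => (((e n).2.1 : Fin ((e n).1 + 1)) : ℕ) = j)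
        = (Finset.univ.filter (fun s : (Σ j : Fin (k + 1), Fin (M ^ (j : ℕ))) => (s.1 : ℕ) = j)).map
          (emb k) := by
      ext n
      simp only [Finset.mem_filter, Finset.mem_map, Finset.mem_univ, true_and]
      constructor
      · rintro ⟨⟨s, rfl⟩, h⟩
        refine ⟨s, ?_, rfl⟩
        rw [hemb] at h
        exact h
      · rintro ⟨s, hs, rfl⟩
        refine ⟨⟨s, rfl⟩, ?_⟩
        rw [hemb]
        exact hs
    rw [h1, Finset.card_map]
    let F : Fin (M ^ j) ↪ (Σ j : Fin (k + 1), Fin (M ^ (j : ℕ))) :=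
      ⟨fun i => ⟨⟨j, by omega⟩, i⟩, by
        intro a b h
        simpa using h⟩
    have h2 : (Finset.univ.filter (fun s : (Σ j : Fin (k + 1), Fin (M ^ (j : ℕ))) => (s.1 : ℕ) = j))
        = Finset.univ.map F := by
      ext s
      simp only [Finset.mem_filter, Finset.mem_univ, true_and, Finset.mem_map]
      constructor
      · rintro h
        obtain ⟨⟨a, ha⟩, b⟩ := s
        simp only at h
        subst h
        exact ⟨b, rfl⟩
      · rintro ⟨i, rfl⟩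
        rfl
    rw [h2, Finset.card_map]
    simp


section Block

variable {𝕜 : Type*} [RCLike 𝕜]

/-- weights -/
noncomputable def wt (lev : ℕ → ℕ) (n : ℕ) : ℝ := (1 / 2 : ℝ) ^ (lev n)

theorem wt_pos (lev : ℕ → ℕ) (n : ℕ) : 0 < wt lev n := by unfold wt; positivity

theorem wt_le_one (lev : ℕ → ℕ) (n : ℕ) : wt lev n ≤ 1 := by
  unfold wt; exact pow_le_one₀ (by norm_num) (by norm_num)

theorem sum_pow_le (M : ℕ) (hM : 2 ≤ M) (q : ℕ) :
    ∑ j ∈ Finset.range (q + 1), M ^ j ≤ 2 * M ^ q := by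
  induction q with
  | zero => simp
  | succ q ih =>
    rw [Finset.sum_range_succ]
    have : M ^ (q + 1) = M * M ^ q := by ring
    nlinarith [pow_pos (show 0 < M by omega) q]

theorem card_low (M : ℕ) (hM : 2 ≤ M) (B : Finset ℕ) (lev : ℕ → ℕ) (k : ℕ)
    (hlev : ∀ n ∈ B, lev n ≤ k)
    (hcard : ∀ j, j ≤ k → (B.filter (fun n => lev n = j)).card = M ^ j) (q : ℕ) :
    (B.filter (fun n => lev n ≤ q)).card ≤ 2 * M ^ q := by
  classical
  have h1 : (B.filter (fun n => lev n ≤ q)).card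
      = ∑ j ∈ Finset.range (q + 1), ((B.filter (fun n => lev n ≤ q)).filter (fun n => lev n = j)).card := by
    apply Finset.card_eq_sum_card_fiberwise
    intro n hn
    have hn := (Finset.mem_filter.mp (Finset.mem_coe.mp hn)).2
    simp only [Finset.coe_range, Set.mem_Iio]
    omega
  rw [h1]
  refine le_trans (Finset.sum_le_sum (fun j hj => ?_)) (sum_pow_le M hM q)
  by_cases hjk : j ≤ k
  · rw [← hcard j hjk]
    apply Finset.card_le_card
    intro n hn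
    simp only [Finset.mem_filter] at hn ⊢
    exact ⟨hn.1.1, hn.2⟩
  · have : ((B.filter (fun n => lev n ≤ q)).filter (fun n => lev n = j)) = ∅ := by
      apply Finset.eq_empty_of_forall_notMem
      intro n hn
      simp only [Finset.mem_filter] at hn
      have := hlev n hn.1.1
      omega
    rw [this]
    simp

/-- The key estimate in one block. -/
theorem block_estimate (M : ℕ) (hM : 2 ≤ M) (l : ℕ) (α : ℝ) (hα : (1 / 2 : ℝ) ^ l ≤ α)
    (B : Finset ℕ) (lev : ℕ → ℕ) (k : ℕ)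
    (hlev : ∀ n ∈ B, lev n ≤ k)
    (hcard : ∀ j, j ≤ k → (B.filter (fun n => lev n = j)).card = M ^ j)
    (g : ℕ → 𝕜)
    (hg : ∀ n ∈ B, ‖g n + (wt lev n : 𝕜) * ∑ m ∈ B, g m‖ ≤ 1)
    (A : Finset ℕ) (hAB : A ⊆ B)
    (hA : ∀ n ∈ A, α ≤ ‖g n + (wt lev n : 𝕜) * ∑ m ∈ B, g m‖) :
    (A.card : ℝ) * α ≤ 16 * (M : ℝ) ^ (l + 1) * ∑ n ∈ B, ‖g n‖ := by
  classical
  have hα0 : 0 < α := lt_of_lt_of_le (by positivity) hα
  set G : ℝ := ∑ n ∈ B, ‖g n‖ with hG
  have hG0 : 0 ≤ G := Finset.sum_nonneg (fun _ _ => norm_nonneg _)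
  set σ : 𝕜 := ∑ m ∈ B, g m with hσ
  have hσG : ‖σ‖ ≤ G := norm_sum_le _ _
  have hM0 : (0 : ℝ) < M := by exact_mod_cast (by omega : 0 < M)
  have hM1 : (1 : ℝ) ≤ M := by exact_mod_cast (by omega : 1 ≤ M)
  set a : ℕ → 𝕜 := fun n => g n + (wt lev n : 𝕜) * σ with ha
  rcases Nat.lt_or_ge (4 * M ^ l) A.card with hbig | hsmall
  swap
  · -- few elements
    rcases A.eq_empty_or_nonempty with rfl | ⟨n, hn⟩
    · simp; positivity
    have h1 : α ≤ 2 * G := by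
      have h2 := hA n hn
      have h3 : ‖g n + (wt lev n : 𝕜) * σ‖ ≤ ‖g n‖ + ‖(wt lev n : 𝕜) * σ‖ := norm_add_le _ _
      have h4 : ‖(wt lev n : 𝕜) * σ‖ ≤ G := by
        rw [norm_mul, RCLike.norm_ofReal, abs_of_pos (wt_pos lev n)]
        calc wt lev n * ‖σ‖ ≤ 1 * ‖σ‖ := by
              apply mul_le_mul_of_nonneg_right (wt_le_one lev n) (norm_nonneg _)
          _ ≤ G := by simpa using hσG
      have h5 : ‖g n‖ ≤ G := Finset.single_le_sum (f := fun n => ‖g n‖)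
        (fun _ _ => norm_nonneg _) (hAB hn)
      linarith
    have h2 : (A.card : ℝ) ≤ 4 * (M : ℝ) ^ l := by exact_mod_cast hsmall
    calc (A.card : ℝ) * α ≤ (4 * (M : ℝ) ^ l) * (2 * G) := by
          apply mul_le_mul h2 h1 hα0.le (by positivity)
      _ = 8 * (M : ℝ) ^ l * G := by ring
      _ ≤ 16 * (M : ℝ) ^ (l + 1) * G := by
          apply mul_le_mul_of_nonneg_right _ hG0
          rw [pow_succ]
          nlinarith [pow_pos hM0 l]
  · -- many elements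
    have hex : ∃ q, A.card ≤ 4 * M ^ q := by
      refine ⟨A.card, ?_⟩
      have : A.card < M ^ A.card := Nat.lt_pow_self (by omega)
      omega
    set q0 := Nat.find hex with hq0
    have hq0s : A.card ≤ 4 * M ^ q0 := Nat.find_spec hex
    have hlq0 : l < q0 := by
      by_contra hcon
      push Not at hcon
      have : M ^ q0 ≤ M ^ l := Nat.pow_le_pow_right (by omega) hcon
      omega
    obtain ⟨q, hq⟩ : ∃ q, q0 = q + 1 := ⟨q0 - 1, by omega⟩
    have hlq : l ≤ q := by omega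
    have hqlt : 4 * M ^ q < A.card := by
      have := Nat.find_min hex (m := q) (by omega)
      omega
    rw [hq] at hq0s
    set A' := A.filter (fun n => q < lev n) with hA'
    have hA'card : (A.card : ℝ) ≤ 2 * A'.card := by
      have h1 : A.card = (A.filter (fun n => lev n ≤ q)).card + A'.card := by
        rw [hA', ← Finset.card_filter_add_card_filter_not (s := A) (fun n => lev n ≤ q)]
        congr 2
        ext n; simp
      have h2 : (A.filter (fun n => lev n ≤ q)).card ≤ 2 * M ^ q := by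
        refine le_trans (Finset.card_le_card ?_) (card_low M hM B lev k hlev hcard q)
        exact Finset.filter_subset_filter _ hAB
      have : A.card ≤ 2 * A'.card := by omega
      exact_mod_cast this
    have hA'pos : 0 < A'.card := by
      have h3 : 0 < A.card := by omega
      have : (0 : ℝ) < A.card := by exact_mod_cast h3
      have : (0 : ℝ) < A'.card := by linarith
      exact_mod_cast this
    obtain ⟨n0, hn0⟩ := Finset.card_pos.mp hA'pos
    have hqk : q < k := by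
      have h1 := Finset.mem_filter.mp hn0
      have h2 := hlev n0 (hAB h1.1)
      omega
    set i := q - l with hi
    have hik : i ≤ k := by omega
    set Li := B.filter (fun n => lev n = i) with hLi
    have hLicard : Li.card = M ^ i := hcard i hik
    set θ : ℕ → 𝕜 := fun n => (starRingEnd 𝕜) (a n) / (‖a n‖ : 𝕜) with hθ
    have hapos : ∀ n ∈ A, 0 < ‖a n‖ := fun n hn => lt_of_lt_of_le hα0 (hA n hn)
    have hθa : ∀ n ∈ A, θ n * a n = (‖a n‖ : 𝕜) := by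
      intro n hn
      have h1 := hapos n hn
      simp only [hθ]
      have h2 : (‖a n‖ : 𝕜) ≠ 0 := by exact_mod_cast h1.ne'
      rw [div_mul_eq_mul_div, RCLike.conj_mul, pow_two, mul_div_assoc, div_self h2, mul_one]
    have hθn : ∀ n ∈ A, ‖θ n‖ = 1 := by
      intro n hn
      have h1 := hapos n hn
      simp only [hθ]
      rw [norm_div, RCLike.norm_conj, RCLike.norm_ofReal, abs_of_pos h1, div_self h1.ne']
    have hA'A : A' ⊆ A := Finset.filter_subset _ _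
    set D : 𝕜 := ∑ n ∈ A', θ n * (wt lev n : 𝕜) with hD
    have hDn : ‖D‖ ≤ A'.card * (1 / 2 : ℝ) ^ (q + 1) := by
      refine le_trans (norm_sum_le _ _) ?_
      rw [← nsmul_eq_mul]
      apply Finset.sum_le_card_nsmul
      intro n hn
      rw [norm_mul, hθn n (hA'A hn), one_mul, RCLike.norm_ofReal, abs_of_pos (wt_pos lev n)]
      unfold wt
      apply pow_le_pow_of_le_one (by norm_num) (by norm_num)
      exact (Finset.mem_filter.mp hn).2
    set t : 𝕜 := D * ((2 : ℝ) ^ i / (M : ℝ) ^ i : ℝ) with ht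
    have htn : ‖t‖ = ‖D‖ * ((2 : ℝ) ^ i / (M : ℝ) ^ i) := by
      rw [ht, norm_mul, RCLike.norm_ofReal, abs_of_nonneg (by positivity)]
    have hpow : (1 / 2 : ℝ) ^ (q + 1) * 2 ^ i = (1 / 2 : ℝ) ^ (l + 1) := by
      have : q + 1 = (l + 1) + i := by omega
      rw [this, pow_add, mul_assoc, ← mul_pow]
      norm_num
    have htM : ‖t‖ * (M : ℝ) ^ i ≤ A'.card * (1 / 2 : ℝ) ^ (l + 1) := by
      rw [htn]
      have : ‖D‖ * ((2 : ℝ) ^ i / (M : ℝ) ^ i) * (M : ℝ) ^ i = ‖D‖ * 2 ^ i := by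
        field_simp
      rw [this, ← hpow, ← mul_assoc]
      exact mul_le_mul_of_nonneg_right hDn (by positivity)
    have htle : ‖t‖ ≤ 2 * (M : ℝ) ^ (l + 1) := by
      have h1 : (A'.card : ℝ) ≤ 4 * (M : ℝ) ^ (q + 1) := by
        have : A'.card ≤ 4 * M ^ (q + 1) := le_trans (Finset.card_le_card hA'A) hq0s
        exact_mod_cast this
      have h2 : (1 / 2 : ℝ) ^ (l + 1) ≤ 1 / 2 := by
        rw [pow_succ]
        have : (1 / 2 : ℝ) ^ l ≤ 1 := pow_le_one₀ (by norm_num) (by norm_num)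
        linarith
      have h3 : ‖t‖ * (M : ℝ) ^ i ≤ 2 * (M : ℝ) ^ (l + 1) * (M : ℝ) ^ i := by
        refine le_trans htM ?_
        have h4 : (M : ℝ) ^ (q + 1) = (M : ℝ) ^ (l + 1) * (M : ℝ) ^ i := by
          rw [← pow_add]; congr 1; omega
        calc (A'.card : ℝ) * (1 / 2 : ℝ) ^ (l + 1) ≤ (4 * (M : ℝ) ^ (q + 1)) * (1 / 2) := by
              apply mul_le_mul h1 h2 (by positivity) (by positivity)
          _ = 2 * (M : ℝ) ^ (l + 1) * (M : ℝ) ^ i := by rw [h4]; ring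
      exact le_of_mul_le_mul_right h3 (by positivity)
    -- the test functional
    set Z : 𝕜 := (∑ n ∈ A', θ n * g n) - t * ∑ n ∈ Li, g n with hZ
    have hZ1 : ‖Z‖ ≤ 4 * (M : ℝ) ^ (l + 1) * G := by
      have h1 : ‖∑ n ∈ A', θ n * g n‖ ≤ G := by
        refine le_trans (norm_sum_le _ _) ?_
        refine le_trans (Finset.sum_le_sum (g := fun n => ‖g n‖) (fun n hn => ?_)) ?_
        · rw [norm_mul, hθn n (hA'A hn), one_mul]
        · exact Finset.sum_le_sum_of_subset_of_nonneg (hA'A.trans hAB)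
            (fun _ _ _ => norm_nonneg _)
      have h2 : ‖∑ n ∈ Li, g n‖ ≤ G := by
        refine le_trans (norm_sum_le _ _) ?_
        exact Finset.sum_le_sum_of_subset_of_nonneg (Finset.filter_subset _ _)
            (fun _ _ _ => norm_nonneg _)
      have h3 : ‖Z‖ ≤ ‖∑ n ∈ A', θ n * g n‖ + ‖t‖ * ‖∑ n ∈ Li, g n‖ := by
        rw [hZ]
        refine le_trans (norm_sub_le _ _) ?_
        rw [norm_mul]
      have h4 : ‖t‖ * ‖∑ n ∈ Li, g n‖ ≤ 2 * (M : ℝ) ^ (l + 1) * G :=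
        mul_le_mul htle h2 (norm_nonneg _) (by positivity)
      have h5 : (1 : ℝ) ≤ (M : ℝ) ^ (l + 1) := one_le_pow₀ hM1
      nlinarith
    have hZ2 : Z = (∑ n ∈ A', (‖a n‖ : 𝕜)) - t * ∑ n ∈ Li, a n := by
      have h1 : ∑ n ∈ A', (‖a n‖ : 𝕜) = (∑ n ∈ A', θ n * g n) + D * σ := by
        rw [hD, Finset.sum_mul, ← Finset.sum_add_distrib]
        apply Finset.sum_congr rfl
        intro n hn
        rw [← hθa n (hA'A hn)]
        simp only [ha]
        ring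
      have h2 : ∑ n ∈ Li, a n = (∑ n ∈ Li, g n) + ((M : ℝ) ^ i / 2 ^ i : ℝ) * σ := by
        simp only [ha]
        rw [Finset.sum_add_distrib, ← Finset.sum_mul]
        congr 2
        have h3 : ∀ n ∈ Li, ((wt lev n : ℝ) : 𝕜) = (((1 / 2 : ℝ) ^ i : ℝ) : 𝕜) := by
          intro n hn
          have := (Finset.mem_filter.mp hn).2
          unfold wt
          rw [this]
        rw [Finset.sum_congr rfl h3, Finset.sum_const, hLicard, nsmul_eq_mul]
        push_cast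
        rw [one_div, inv_pow, div_eq_mul_inv]
      rw [h1, h2, hZ, ht]
      have h4 : (((2 : ℝ) ^ i / (M : ℝ) ^ i : ℝ) : 𝕜) * (((M : ℝ) ^ i / 2 ^ i : ℝ) : 𝕜) = 1 := by
        rw [← RCLike.ofReal_mul]
        have : (2 : ℝ) ^ i / (M : ℝ) ^ i * ((M : ℝ) ^ i / 2 ^ i) = 1 := by
          field_simp
        rw [this]; simp
      linear_combination (D * σ) * h4
    have hZ3 : (A'.card : ℝ) * α / 2 ≤ ‖Z‖ := by
      have h1 : (A'.card : ℝ) * α ≤ ‖∑ n ∈ A', (‖a n‖ : 𝕜)‖ := by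
        rw [← RCLike.ofReal_sum, RCLike.norm_ofReal,
          abs_of_nonneg (Finset.sum_nonneg (fun _ _ => norm_nonneg _)), ← nsmul_eq_mul]
        apply Finset.card_nsmul_le_sum
        intro n hn
        exact hA n (hA'A hn)
      have h2 : ‖t * ∑ n ∈ Li, a n‖ ≤ A'.card * (1 / 2 : ℝ) ^ (l + 1) := by
        rw [norm_mul]
        refine le_trans ?_ htM
        apply mul_le_mul_of_nonneg_left _ (norm_nonneg _)
        refine le_trans (norm_sum_le _ _) ?_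
        have h5 : ∑ n ∈ Li, ‖a n‖ ≤ Li.card • (1 : ℝ) := by
          apply Finset.sum_le_card_nsmul
          intro n hn
          exact hg n (Finset.mem_filter.mp hn).1
        rw [hLicard] at h5
        simpa using h5
      have h3 : (1 / 2 : ℝ) ^ (l + 1) ≤ α / 2 := by
        rw [pow_succ]; linarith
      have h4 : ‖∑ n ∈ A', (‖a n‖ : 𝕜)‖ - ‖t * ∑ n ∈ Li, a n‖ ≤ ‖Z‖ := by
        rw [hZ2]; exact norm_sub_norm_le _ _
      have h6 : (A'.card : ℝ) * (1 / 2 : ℝ) ^ (l + 1) ≤ A'.card * (α / 2) :=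
        mul_le_mul_of_nonneg_left h3 (by positivity)
      linarith
    nlinarith

end Block

section Space

variable (𝕜 : Type*) [RCLike 𝕜]

/-- The space `ℓ_1`. -/
abbrev E1 := lp (fun _ : ℕ => 𝕜) 1

variable {M : ℕ} (S : Blocks M)

noncomputable def ee (n : ℕ) : E1 𝕜 := lp.single 1 n (1 : 𝕜)

noncomputable def sumW (k : ℕ) : ℝ := 1 + ∑ m ∈ S.B k, wt S.lev m

noncomputable def FF (k : ℕ) : E1 𝕜 := ∑ m ∈ S.B k, (wt S.lev m : 𝕜) • ee 𝕜 m

/-- the basis -/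
noncomputable def bx (n : ℕ) : E1 𝕜 :=
  ee 𝕜 n - (((sumW S (S.blk n))⁻¹ : ℝ) : 𝕜) • FF 𝕜 S (S.blk n)

/-- the coordinate functionals -/
noncomputable def bf (n : ℕ) : E1 𝕜 →L[𝕜] 𝕜 :=
  lp.evalCLM 𝕜 (fun _ : ℕ => 𝕜) 1 n
    + (wt S.lev n : 𝕜) • ∑ m ∈ S.B (S.blk n), lp.evalCLM 𝕜 (fun _ : ℕ => 𝕜) 1 m

variable {𝕜}

theorem sumW_pos (k : ℕ) : 0 < sumW S k := by
  unfold sumW
  have : 0 ≤ ∑ m ∈ S.B k, wt S.lev m := Finset.sum_nonneg (fun m _ => (wt_pos _ _).le)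
  linarith

theorem ee_apply (n m : ℕ) : (ee 𝕜 n : ℕ → 𝕜) m = if m = n then 1 else 0 := by
  unfold ee
  rw [lp.single_apply]
  split_ifs with h
  · subst h; simp
  · exact Pi.single_eq_of_ne h 1

theorem bf_apply (n : ℕ) (g : E1 𝕜) :
    bf 𝕜 S n g = g n + (wt S.lev n : 𝕜) * ∑ m ∈ S.B (S.blk n), g m := by
  unfold bf
  rw [_root_.add_apply, _root_.smul_apply, _root_.sum_apply, smul_eq_mul]
  rfl

theorem FF_apply (k m : ℕ) : (FF 𝕜 S k : ℕ → 𝕜) m = if S.blk m = k then (wt S.lev m : 𝕜) else 0 := by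
  unfold FF
  rw [lp.coeFn_sum, Finset.sum_apply]
  simp only [lp.coeFn_smul, Pi.smul_apply, ee_apply, smul_eq_mul]
  by_cases h : S.blk m = k
  · rw [if_pos h, Finset.sum_eq_single_of_mem m ((S.mem_B m k).2 h)]
    · simp
    · intro b _ hb
      rw [if_neg (fun h => hb h.symm), mul_zero]
  · rw [if_neg h]
    apply Finset.sum_eq_zero
    intro b hb
    have : m ≠ b := by
      rintro rfl
      exact h ((S.mem_B m k).1 hb)
    rw [if_neg this, mul_zero]

theorem sum_FF (k : ℕ) : ∑ m ∈ S.B k, (FF 𝕜 S k : ℕ → 𝕜) m = ((sumW S k - 1 : ℝ) : 𝕜) := by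
  have : ∀ m ∈ S.B k, (FF 𝕜 S k : ℕ → 𝕜) m = ((wt S.lev m : ℝ) : 𝕜) := by
    intro m hm
    rw [FF_apply, if_pos ((S.mem_B m k).1 hm)]
  rw [Finset.sum_congr rfl this, ← RCLike.ofReal_sum]
  congr 1
  unfold sumW; ring

theorem bf_ee (n m : ℕ) : bf 𝕜 S n (ee 𝕜 m) = (if n = m then 1 else 0)
    + (if S.blk n = S.blk m then (wt S.lev n : 𝕜) else 0) := by
  rw [bf_apply, ee_apply]
  congr 1
  simp only [ee_apply]
  by_cases h : S.blk n = S.blk m
  · rw [if_pos h, Finset.sum_ite_eq' , if_pos, mul_one]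
    rw [S.mem_B]; exact h.symm
  · rw [if_neg h, Finset.sum_ite_eq', if_neg, mul_zero]
    rw [S.mem_B]; exact fun h' => h h'.symm

theorem bf_FF (n k : ℕ) : bf 𝕜 S n (FF 𝕜 S k)
    = if S.blk n = k then ((wt S.lev n * sumW S k : ℝ) : 𝕜) else 0 := by
  rw [bf_apply, FF_apply]
  by_cases h : S.blk n = k
  · rw [if_pos h, if_pos h, h, sum_FF]
    push_cast; ring
  · rw [if_neg h, if_neg h, zero_add]
    have : ∀ m ∈ S.B (S.blk n), (FF 𝕜 S k : ℕ → 𝕜) m = 0 := by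
      intro m hm
      rw [FF_apply, if_neg]
      rw [(S.mem_B _ _).1 hm]
      exact h
    rw [Finset.sum_eq_zero this, mul_zero]

theorem bf_bx (n m : ℕ) : bf 𝕜 S n (bx 𝕜 S m) = if n = m then 1 else 0 := by
  unfold bx
  rw [map_sub, map_smul, bf_ee, bf_FF]
  by_cases h : S.blk n = S.blk m
  · rw [if_pos h, if_pos h, smul_eq_mul, ← RCLike.ofReal_mul]
    have h2 : (sumW S (S.blk m))⁻¹ * (wt S.lev n * sumW S (S.blk m)) = wt S.lev n := by
      field_simp [(sumW_pos S (S.blk m)).ne']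
    rw [h2]; ring
  · rw [if_neg h, if_neg h]; simp

theorem norm_ee (n : ℕ) : ‖ee 𝕜 n‖ = 1 := by
  unfold ee
  rw [lp.norm_single (by norm_num)]
  simp

theorem norm_FF_le (k : ℕ) : ‖FF 𝕜 S k‖ ≤ sumW S k - 1 := by
  unfold FF
  refine le_trans (norm_sum_le _ _) ?_
  have : ∀ m ∈ S.B k, ‖(wt S.lev m : 𝕜) • ee 𝕜 m‖ = wt S.lev m := by
    intro m _
    rw [norm_smul, norm_ee, mul_one, RCLike.norm_ofReal, abs_of_pos (wt_pos _ _)]
  rw [Finset.sum_congr rfl this]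
  unfold sumW
  linarith

theorem norm_scaled_FF_le (k : ℕ) : ‖(((sumW S k)⁻¹ : ℝ) : 𝕜) • FF 𝕜 S k‖ ≤ 1 := by
  rw [norm_smul, RCLike.norm_ofReal, abs_of_pos (inv_pos.mpr (sumW_pos S k))]
  have h1 := norm_FF_le (𝕜 := 𝕜) S k
  have h2 := sumW_pos S k
  rw [inv_mul_le_iff₀ h2]
  linarith

theorem norm_bx_le (n : ℕ) : ‖bx 𝕜 S n‖ ≤ 2 := by
  unfold bx
  refine le_trans (norm_sub_le _ _) ?_
  have h1 := norm_ee (𝕜 := 𝕜) n
  have h2 := norm_scaled_FF_le (𝕜 := 𝕜) S (S.blk n)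
  linarith

theorem sum_norm_le (g : E1 𝕜) (A : Finset ℕ) : ∑ n ∈ A, ‖g n‖ ≤ ‖g‖ := by
  have := lp.sum_rpow_le_norm_rpow (p := 1) (by norm_num) g A
  simpa using this

theorem norm_bf_le (n : ℕ) : ‖bf 𝕜 S n‖ ≤ 2 := by
  apply ContinuousLinearMap.opNorm_le_bound _ (by norm_num)
  intro g
  rw [bf_apply]
  have h1 : ‖g n‖ ≤ ‖g‖ := lp.norm_apply_le_norm (by norm_num) g n
  have h2 : ‖(wt S.lev n : 𝕜) * ∑ m ∈ S.B (S.blk n), g m‖ ≤ ‖g‖ := by
    rw [norm_mul, RCLike.norm_ofReal, abs_of_pos (wt_pos _ _)]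
    calc wt S.lev n * ‖∑ m ∈ S.B (S.blk n), g m‖ ≤ 1 * ‖g‖ := by
          apply mul_le_mul (wt_le_one _ _) _ (norm_nonneg _) zero_le_one
          exact le_trans (norm_sum_le _ _) (sum_norm_le g _)
      _ = ‖g‖ := one_mul _
  refine le_trans (norm_add_le _ _) ?_
  linarith

theorem sum_wt_bx (k : ℕ) :
    ∑ m ∈ S.B k, (wt S.lev m : 𝕜) • bx 𝕜 S m = (((sumW S k)⁻¹ : ℝ) : 𝕜) • FF 𝕜 S k := by
  have h1 : ∀ m ∈ S.B k, (wt S.lev m : 𝕜) • bx 𝕜 S m
      = (wt S.lev m : 𝕜) • ee 𝕜 m - ((wt S.lev m : ℝ) : 𝕜) • ((((sumW S k)⁻¹ : ℝ) : 𝕜) • FF 𝕜 S k) := by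
    intro m hm
    unfold bx
    rw [(S.mem_B m k).1 hm, smul_sub]
  rw [Finset.sum_congr rfl h1, Finset.sum_sub_distrib, ← Finset.sum_smul, ← RCLike.ofReal_sum]
  have h2 : ∑ m ∈ S.B k, wt S.lev m = sumW S k - 1 := by unfold sumW; ring
  rw [h2]
  change FF 𝕜 S k - _ = _
  rw [smul_smul, ← RCLike.ofReal_mul]
  have h3 : (sumW S k - 1) * (sumW S k)⁻¹ = 1 - (sumW S k)⁻¹ := by
    field_simp [(sumW_pos S k).ne']
  rw [h3]
  push_cast
  rw [sub_smul, one_smul]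
  abel

theorem ee_mem_span (n : ℕ) : ee 𝕜 n ∈ Submodule.span 𝕜 (Set.range (bx 𝕜 S)) := by
  have h1 : ee 𝕜 n = bx 𝕜 S n + ∑ m ∈ S.B (S.blk n), (wt S.lev m : 𝕜) • bx 𝕜 S m := by
    rw [sum_wt_bx]; unfold bx; abel
  rw [h1]
  apply Submodule.add_mem
  · exact Submodule.subset_span ⟨n, rfl⟩
  · apply Submodule.sum_mem
    intro m _
    exact Submodule.smul_mem _ _ (Submodule.subset_span ⟨m, rfl⟩)

theorem isBasis_bx : IsBasis (bx 𝕜 S) (bf 𝕜 S) where
  biorthogonal := bf_bx S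
  dense_span := by
    intro g
    have h1 := lp.hasSum_single (E := fun _ : ℕ => 𝕜) (p := 1) (by norm_num) g
    refine mem_closure_of_tendsto h1 (Filter.Eventually.of_forall (fun A => ?_))
    apply Submodule.sum_mem
    intro n _
    have h2 : lp.single (E := fun _ : ℕ => 𝕜) 1 n (g n) = (g n) • ee 𝕜 n := by
      unfold ee
      rw [← lp.single_smul]
      simp
    rw [h2]
    exact Submodule.smul_mem _ _ (ee_mem_span S n)
  bounded := ⟨2, norm_bx_le S⟩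
  bounded_dual := ⟨2, norm_bf_le S⟩

/-- Main counting estimate. -/
theorem count_estimate (hM : 2 ≤ M) (l : ℕ) (α : ℝ) (hα : (1 / 2 : ℝ) ^ l ≤ α)
    (g : E1 𝕜) (hg : g ∈ coeffBall (bf 𝕜 S)) (A : Finset ℕ) (hA : ∀ n ∈ A, α ≤ ‖bf 𝕜 S n g‖) :
    (A.card : ℝ) * α ≤ 16 * (M : ℝ) ^ (l + 1) * ‖g‖ := by
  classical
  have hdisj : ∀ k k', k ≠ k' → Disjoint (S.B k) (S.B k') := by
    intro k k' hkk
    rw [Finset.disjoint_left]
    intro n h1 h2
    exact hkk (((S.mem_B n k).1 h1).symm.trans ((S.mem_B n k').1 h2))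
  have h1 : ∀ k, ((A.filter (fun n => S.blk n = k)).card : ℝ) * α
      ≤ 16 * (M : ℝ) ^ (l + 1) * ∑ n ∈ S.B k, ‖g n‖ := by
    intro k
    apply block_estimate M hM l α hα (S.B k) S.lev k
    · intro n hn
      have := S.lev_le n
      rw [(S.mem_B n k).1 hn] at this
      exact this
    · exact S.card_lev k
    · intro n hn
      have := hg n
      rw [bf_apply, (S.mem_B n k).1 hn] at this
      exact this
    · intro n hn
      exact (S.mem_B n k).2 (Finset.mem_filter.mp hn).2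
    · intro n hn
      have := hA n (Finset.mem_filter.mp hn).1
      rw [bf_apply, (Finset.mem_filter.mp hn).2] at this
      exact this
  have h2 : (A.card : ℝ) = ∑ k ∈ A.image S.blk, ((A.filter (fun n => S.blk n = k)).card : ℝ) := by
    exact_mod_cast Finset.card_eq_sum_card_image S.blk A
  rw [h2, Finset.sum_mul]
  refine le_trans (Finset.sum_le_sum (fun k _ => h1 k)) ?_
  rw [← Finset.mul_sum]
  apply mul_le_mul_of_nonneg_left _ (by positivity)
  rw [← Finset.sum_biUnion (fun k _ k' _ hkk => hdisj k k' hkk)]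
  exact sum_norm_le g _

theorem nearlyUnconditional_bx (hM : 2 ≤ M) : NearlyUnconditional (bx 𝕜 S) (bf 𝕜 S) := by
  intro a ha _
  obtain ⟨l, hl⟩ := exists_pow_lt_of_lt_one ha (show (1 / 2 : ℝ) < 1 by norm_num)
  refine ⟨2 * (16 * (M : ℝ) ^ (l + 1)) / a, ?_⟩
  intro g hg A hA
  have h1 := count_estimate S hM l a hl.le g hg A hA
  have h2 : ‖∑ n ∈ A, bf 𝕜 S n g • bx 𝕜 S n‖ ≤ 2 * A.card := by
    refine le_trans (norm_sum_le _ _) ?_
    have : ∑ n ∈ A, ‖bf 𝕜 S n g • bx 𝕜 S n‖ ≤ A.card • (2 : ℝ) := by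
      apply Finset.sum_le_card_nsmul
      intro n _
      rw [norm_smul]
      have h3 := hg n
      have h4 := norm_bx_le (𝕜 := 𝕜) S n
      nlinarith [norm_nonneg (bf 𝕜 S n g), norm_nonneg (bx 𝕜 S n)]
    rw [nsmul_eq_mul] at this
    linarith
  refine le_trans h2 ?_
  have h5 : 2 * (16 * (M : ℝ) ^ (l + 1)) / a * ‖g‖ = 2 * ((16 * (M : ℝ) ^ (l + 1) * ‖g‖) / a) := by
    ring
  rw [h5]
  apply mul_le_mul_of_nonneg_left _ (by norm_num)
  rw [le_div_iff₀ ha]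
  exact h1

end Space

section Main

variable {𝕜 : Type*} [RCLike 𝕜] {M : ℕ} (S : Blocks M)

/-- tails `g_j` of the bad vector in block `k` -/
noncomputable def tailV (k j : ℕ) : E1 𝕜 :=
  ∑ n ∈ (S.B k).filter (fun n => j ≤ S.lev n), (wt S.lev n : 𝕜) • bx 𝕜 S n

noncomputable def levV (k j : ℕ) : E1 𝕜 :=
  ∑ n ∈ (S.B k).filter (fun n => S.lev n = j), (1 : 𝕜) • bx 𝕜 S n

theorem bf_sum (A : Finset ℕ) (c : ℕ → 𝕜) (n : ℕ) :
    bf 𝕜 S n (∑ m ∈ A, c m • bx 𝕜 S m) = if n ∈ A then c n else 0 := by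
  classical
  rw [map_sum]
  simp only [map_smul, bf_bx, smul_eq_mul, mul_ite, mul_one, mul_zero]
  rw [Finset.sum_ite_eq]

theorem tailV_succ (k j : ℕ) :
    (tailV S k j : E1 𝕜) = (((1 / 2 : ℝ) ^ j : ℝ) : 𝕜) • levV S k j + tailV S k (j + 1) := by
  classical
  unfold tailV levV
  rw [Finset.smul_sum]
  have h1 : (S.B k).filter (fun n => j ≤ S.lev n)
      = (S.B k).filter (fun n => S.lev n = j) ∪ (S.B k).filter (fun n => j + 1 ≤ S.lev n) := by
    ext n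
    simp only [Finset.mem_filter, Finset.mem_union]
    constructor
    · rintro ⟨h, h'⟩
      rcases Nat.eq_or_lt_of_le h' with h'' | h''
      · exact Or.inl ⟨h, h''.symm⟩
      · exact Or.inr ⟨h, h''⟩
    · rintro (⟨h, h'⟩ | ⟨h, h'⟩)
      · exact ⟨h, h'.ge⟩
      · exact ⟨h, by omega⟩
  rw [h1, Finset.sum_union]
  · congr 1
    apply Finset.sum_congr rfl
    intro n hn
    rw [one_smul]
    congr 2
    unfold wt
    rw [(Finset.mem_filter.mp hn).2]
  · rw [Finset.disjoint_left]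
    intro n hn hn'
    have h2 := (Finset.mem_filter.mp hn).2
    have h3 := (Finset.mem_filter.mp hn').2
    omega

theorem step_qglc {C : ℝ} {N : Seminorm 𝕜 (E1 𝕜)} (h : IsQGLC C N (bx 𝕜 S) (bf 𝕜 S)) (k j : ℕ) :
    N (tailV S k (j + 1)) ≤ (1 + |C|) * N (tailV S k j) := by
  classical
  set A := (S.B k).filter (fun n => S.lev n = j) with hA
  set c2 : 𝕜 := (((2 : ℝ) ^ j : ℝ) : 𝕜) with hc2
  have hc : c2 * (((1 / 2 : ℝ) ^ j : ℝ) : 𝕜) = 1 := by
    rw [hc2, ← RCLike.ofReal_mul, ← mul_pow]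
    norm_num
  have hnc : ‖c2‖ = (2 : ℝ) ^ j := by
    rw [hc2, RCLike.norm_ofReal, abs_of_pos (by positivity)]
  have hg : (c2 • tailV S k (j + 1) : E1 𝕜) ∈ coeffBall (bf 𝕜 S) := by
    intro n
    rw [map_smul, tailV, bf_sum, smul_eq_mul, norm_mul, hnc]
    split_ifs with hn
    · rw [RCLike.norm_ofReal, abs_of_pos (wt_pos _ _)]
      have h2 := (Finset.mem_filter.mp hn).2
      unfold wt
      calc (2 : ℝ) ^ j * (1 / 2) ^ S.lev n ≤ (2 : ℝ) ^ j * (1 / 2) ^ j := by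
            apply mul_le_mul_of_nonneg_left _ (by positivity)
            exact pow_le_pow_of_le_one (by norm_num) (by norm_num) (by omega)
        _ = 1 := by rw [← mul_pow]; norm_num
    · simp
  have hg0 : ∀ n ∈ A, bf 𝕜 S n (c2 • tailV S k (j + 1) : E1 𝕜) = 0 := by
    intro n hn
    rw [map_smul, tailV, bf_sum, if_neg, smul_zero]
    intro hn'
    have h2 := (Finset.mem_filter.mp hn).2
    have h3 := (Finset.mem_filter.mp hn').2
    omega
  have h1 := h A (fun _ => 1) (fun _ _ => by simp) _ hg hg0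
  have h2 : (∑ n ∈ A, (1 : 𝕜) • bx 𝕜 S n) + c2 • tailV S k (j + 1) = c2 • tailV S k j := by
    rw [tailV_succ S k j, smul_add, smul_smul, hc, one_smul]
    rfl
  rw [h2, map_smul_eq_mul, hnc] at h1
  have h3 : (tailV S k (j + 1) : E1 𝕜)
      = tailV S k j - (((1 / 2 : ℝ) ^ j : ℝ) : 𝕜) • ∑ n ∈ A, (1 : 𝕜) • bx 𝕜 S n := by
    rw [tailV_succ S k j]
    change _ = (((1 / 2 : ℝ) ^ j : ℝ) : 𝕜) • levV S k j + tailV S k (j + 1)
      - (((1 / 2 : ℝ) ^ j : ℝ) : 𝕜) • levV S k j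
    abel
  have h4 : N (tailV S k (j + 1)) ≤ N (tailV S k j)
      + (1 / 2 : ℝ) ^ j * N (∑ n ∈ A, (1 : 𝕜) • bx 𝕜 S n) := by
    rw [h3]
    refine le_trans (map_sub_le_add N _ _) ?_
    rw [map_smul_eq_mul, RCLike.norm_ofReal, abs_of_pos (by positivity : (0 : ℝ) < (1 / 2) ^ j)]
  have h5 : C * (2 ^ j * N (tailV S k j)) ≤ |C| * (2 ^ j * N (tailV S k j)) :=
    mul_le_mul_of_nonneg_right (le_abs_self C) (by positivity)
  have h6 : (1 / 2 : ℝ) ^ j * N (∑ n ∈ A, (1 : 𝕜) • bx 𝕜 S n)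
      ≤ (1 / 2 : ℝ) ^ j * (|C| * (2 ^ j * N (tailV S k j))) :=
    mul_le_mul_of_nonneg_left (h1.trans h5) (by positivity)
  have h7 : (1 / 2 : ℝ) ^ j * (|C| * (2 ^ j * N (tailV S k j))) = |C| * N (tailV S k j) := by
    have : (1 / 2 : ℝ) ^ j * 2 ^ j = 1 := by rw [← mul_pow]; norm_num
    linear_combination (|C| * N (tailV S k j)) * this
  linarith

theorem iterate_qglc {C : ℝ} {N : Seminorm 𝕜 (E1 𝕜)} (h : IsQGLC C N (bx 𝕜 S) (bf 𝕜 S)) (k j : ℕ) :
    N (tailV S k j) ≤ (1 + |C|) ^ j * N (tailV S k 0) := by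
  induction j with
  | zero => simp
  | succ j ih =>
    refine le_trans (step_qglc S h k j) ?_
    rw [pow_succ]
    have : 0 ≤ 1 + |C| := by positivity
    nlinarith

theorem norm_tailV_zero (k : ℕ) : ‖(tailV S k 0 : E1 𝕜)‖ ≤ 1 := by
  have : (tailV S k 0 : E1 𝕜) = (((sumW S k)⁻¹ : ℝ) : 𝕜) • FF 𝕜 S k := by
    rw [← sum_wt_bx]
    unfold tailV
    simp
  rw [this]
  exact norm_scaled_FF_le S k

theorem tailV_top (k : ℕ) :
    (tailV S k k : E1 𝕜) = (((1 / 2 : ℝ) ^ k : ℝ) : 𝕜) • levV S k k := by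
  rw [tailV_succ]
  have : (tailV S k (k + 1) : E1 𝕜) = 0 := by
    unfold tailV
    apply Finset.sum_eq_zero
    intro n hn
    exfalso
    have h1 := Finset.mem_filter.mp hn
    have h2 := S.lev_le n
    rw [(S.mem_B n k).1 h1.1] at h2
    omega
  rw [this, add_zero]

theorem norm_levV_ge (hM : 2 ≤ M) (k : ℕ) :
    (M : ℝ) ^ k ≤ 16 * M * ‖(levV S k k : E1 𝕜)‖ := by
  have h1 : (levV S k k : E1 𝕜) ∈ coeffBall (bf 𝕜 S) := by
    intro n
    unfold levV
    rw [bf_sum S _ (fun _ => (1 : 𝕜))]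
    split_ifs <;> simp
  have h2 := count_estimate S hM 0 1 (by norm_num) (levV S k k : E1 𝕜) h1
    ((S.B k).filter (fun n => S.lev n = k)) (by
      intro n hn
      unfold levV
      rw [bf_sum S _ (fun _ => (1 : 𝕜)), if_pos hn]
      simp)
  rw [S.card_lev k k le_rfl] at h2
  simpa using h2

theorem not_isQGLC (hM : 2 ≤ M) {C : ℝ} (hC : 2 * (1 + |C|) < M) (N : Seminorm 𝕜 (E1 𝕜))
    (hN : IsEquivalentNorm N) : ¬ IsQGLC C N (bx 𝕜 S) (bf 𝕜 S) := by
  intro h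
  obtain ⟨c, K, hc, hcK⟩ := hN
  have hC0 : 0 < 2 * (1 + |C|) := by positivity
  have hr : 1 < (M : ℝ) / (2 * (1 + |C|)) := by rwa [one_lt_div hC0]
  obtain ⟨k, hk⟩ := pow_unbounded_of_one_lt (16 * M * (|K| / c)) hr
  have h1 := norm_levV_ge (𝕜 := 𝕜) S hM k
  have h2 : ‖(tailV S k k : E1 𝕜)‖ = (1 / 2 : ℝ) ^ k * ‖(levV S k k : E1 𝕜)‖ := by
    rw [tailV_top, norm_smul, RCLike.norm_ofReal, abs_of_pos (by positivity)]
  have h3 : c * ‖(tailV S k k : E1 𝕜)‖ ≤ (1 + |C|) ^ k * |K| := by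
    refine le_trans (hcK _).1 (le_trans (iterate_qglc S h k k) ?_)
    apply mul_le_mul_of_nonneg_left _ (by positivity)
    refine le_trans (hcK _).2 ?_
    have h4 := norm_tailV_zero (𝕜 := 𝕜) S k
    calc K * ‖(tailV S k 0 : E1 𝕜)‖ ≤ |K| * ‖(tailV S k 0 : E1 𝕜)‖ :=
          mul_le_mul_of_nonneg_right (le_abs_self K) (norm_nonneg _)
      _ ≤ |K| * 1 := mul_le_mul_of_nonneg_left h4 (abs_nonneg K)
      _ = |K| := mul_one _
  have h4 : ‖(levV S k k : E1 𝕜)‖ ≤ 2 ^ k * ((1 + |C|) ^ k * (|K| / c)) := by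
    have h5 : ‖(levV S k k : E1 𝕜)‖ = 2 ^ k * ‖(tailV S k k : E1 𝕜)‖ := by
      rw [h2, ← mul_assoc, ← mul_pow]; norm_num
    rw [h5]
    apply mul_le_mul_of_nonneg_left _ (by positivity)
    rw [← mul_div_assoc, le_div_iff₀ hc, mul_comm]
    exact h3
  have h5 : (M : ℝ) ^ k ≤ (2 * (1 + |C|)) ^ k * (16 * M * (|K| / c)) := by
    refine le_trans h1 ?_
    have h6 : 16 * (M : ℝ) * ‖(levV S k k : E1 𝕜)‖
        ≤ 16 * (M : ℝ) * (2 ^ k * ((1 + |C|) ^ k * (|K| / c))) :=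
      mul_le_mul_of_nonneg_left h4 (by positivity)
    refine le_trans h6 (le_of_eq ?_)
    rw [mul_pow]; ring
  rw [div_pow, lt_div_iff₀ (by positivity)] at hk
  linarith

end Main

/-- The Banach space `X` over `𝕜` has a nearly unconditional basis that is not `C`-QGLC under
any equivalent norm. -/
def HasBadBasis (𝕜 X : Type*) [RCLike 𝕜] [NormedAddCommGroup X] [NormedSpace 𝕜 X] (C : ℝ) : Prop :=
  ∃ (x : ℕ → X) (f : ℕ → (X →L[𝕜] 𝕜)), IsBasis x f ∧ NearlyUnconditional x f ∧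
    ∀ N : Seminorm 𝕜 X, IsEquivalentNorm N → ¬ IsQGLC C N x f

/-- For the Banach space `ℓ_1` (real or complex) and every constant `C` there is a nearly
unconditional basis of `ℓ_1` that is not `C`-QGLC under any equivalent norm. -/
theorem result (𝕜 : Type) [RCLike 𝕜] (C : ℝ) : HasBadBasis 𝕜 (lp (fun _ : ℕ => 𝕜) 1) C := by
  obtain ⟨M, hM⟩ := exists_nat_gt (2 * (1 + |C|))
  have hM2 : 2 ≤ M := by
    have : (2 : ℝ) < M := by
      have := abs_nonneg C
      linarith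
    exact_mod_cast this.le
  obtain ⟨S⟩ := exists_blocks M (by omega)
  exact ⟨bx 𝕜 S, bf 𝕜 S, isBasis_bx S, nearlyUnconditional_bx S hM2,
    fun N hN => not_isQGLC S hM2 hM N hN⟩

end Pool.Agent.Results.MP_142f15_an.RenormQGLC
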